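import Pool.Agent.U762.RP.Stm2
import Pool.Agent.U594.RP.AVG

set_option autoImplicit false

/-!
Project RP (helper762), package AVGm: averages of the killed annealed chain over arithmetic progressions,
expanding case (potential `|x|^(-θ)`, lower bounds).
-/

namespace Pool.Agent.U492.RP

open Finset Pool.Agent.U762.RP

theorem Vm_nonneg (M θ : ℝ) (x : ℤ) : 0 ≤ Vm M θ x := by
  unfold Vm
  split_ifs
  · exact le_rfl
  · exact Real.rpow_nonneg (abs_nonneg _) _

theorem Qitm_nonneg {d : ℕ} {m r : ℤ → ℤ} {w : ℤ → ℝ} (hw : ∀ u, 0 ≤ w u) (B : ℕ) (M θ : ℝ) (k : ℕ) :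
    ∀ x, 0 ≤ (Q d m r w B M)^[k] (Vm M θ) x := by
  induction k with
  | zero => exact Vm_nonneg M θ
  | succ k ih =>
    intro x
    rw [Function.iterate_succ_apply']
    exact Pool.Agent.U594.RP.Q_nonneg hw B M ih x

/-- the lower growth bound for one step -/
theorem step_lower {d : ℕ} {m r : ℤ → ℤ} (h : Rel d m r) {η z : ℝ} (hη : 0 < η) (B : ℕ) (j : ℕ)
    (hj : j ∈ range d) (hz : (|((r (j : ℤ) : ℤ) : ℝ)| + d * B) / η ≤ z) (x : ℤ) (hx : x % d = (j : ℤ))
    (hxz : z ≤ |(x : ℝ)|) (u : ℤ) (hu : |u| ≤ B) :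
    facm d m η j * z ≤ |((T d m r x + u : ℤ) : ℝ)| := by
  have hd : 0 < d := by have := h.two_le; omega
  have hdR : (0 : ℝ) < d := by exact_mod_cast hd
  have hjd : (j : ℤ) < d := by exact_mod_cast Finset.mem_range.mp hj
  have hmj : (1 : ℝ) ≤ (m (j : ℤ) : ℝ) := by
    have := h.pos (j : ℤ) (by positivity) hjd
    exact_mod_cast this
  have h1 := Pool.Agent.U594.RP.T_exact h x
  rw [hx] at h1
  have h2 : (d : ℝ) * (T d m r x : ℝ) = (m (j : ℤ) : ℝ) * x - (r (j : ℤ) : ℝ) := by exact_mod_cast h1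
  have hu' : |(u : ℝ)| ≤ B := by exact_mod_cast hu
  have h3 : (m (j : ℤ) : ℝ) * z - |(r (j : ℤ) : ℝ)| ≤ (d : ℝ) * |(T d m r x : ℝ)| := by
    have h4 : (d : ℝ) * |(T d m r x : ℝ)| = |(d : ℝ) * (T d m r x : ℝ)| := by
      rw [abs_mul, abs_of_pos hdR]
    rw [h4, h2]
    calc (m (j : ℤ) : ℝ) * z - |(r (j : ℤ) : ℝ)|
        ≤ (m (j : ℤ) : ℝ) * |(x : ℝ)| - |(r (j : ℤ) : ℝ)| := by
          have := mul_le_mul_of_nonneg_left hxz (by linarith : (0 : ℝ) ≤ (m (j : ℤ) : ℝ))
          linarith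
      _ = |(m (j : ℤ) : ℝ) * x| - |(r (j : ℤ) : ℝ)| := by
          rw [abs_mul, abs_of_nonneg (by linarith : (0 : ℝ) ≤ (m (j : ℤ) : ℝ))]
      _ ≤ |(m (j : ℤ) : ℝ) * x - (r (j : ℤ) : ℝ)| := abs_sub_abs_le_abs_sub _ _
  have h5 : |(T d m r x : ℝ)| - B ≤ |((T d m r x + u : ℤ) : ℝ)| := by
    push_cast
    have h51 : |(T d m r x : ℝ)| ≤ |(T d m r x : ℝ) + (u : ℝ)| + |(u : ℝ)| := by
      have := abs_add_le ((T d m r x : ℝ) + (u : ℝ)) (-(u : ℝ))
      rw [abs_neg, add_neg_cancel_right] at this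
      exact this
    linarith
  have h6 : |(r (j : ℤ) : ℝ)| + d * B ≤ η * z := by
    have := (div_le_iff₀ hη).mp hz
    linarith
  have h7 : (d : ℝ) * (facm d m η j * z) = (m (j : ℤ) : ℝ) * z - (m (j : ℤ) : ℝ) * (η * z) := by
    unfold facm
    field_simp
  have hηz : 0 ≤ η * z := le_trans (by positivity) h6
  have h8 : η * z ≤ (m (j : ℤ) : ℝ) * (η * z) := le_mul_of_one_le_left hηz hmj
  have h9 : (d : ℝ) * (facm d m η j * z) ≤ (d : ℝ) * |((T d m r x + u : ℤ) : ℝ)| := by
    rw [h7]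
    have := mul_le_mul_of_nonneg_left h5 hdR.le
    nlinarith
  exact le_of_mul_le_mul_left h9 hdR

theorem facm_lower {d : ℕ} {m r : ℤ → ℤ} (h : Rel d m r) {η : ℝ} (hη2 : η ≤ 1 / 2) (j : ℕ)
    (hj : j ∈ range d) : 1 / (2 * d : ℝ) ≤ facm d m η j := by
  have hd : 0 < d := by have := h.two_le; omega
  have hdR : (0 : ℝ) < d := by exact_mod_cast hd
  have hjd : (j : ℤ) < d := by exact_mod_cast Finset.mem_range.mp hj
  have hmj : (1 : ℝ) ≤ (m (j : ℤ) : ℝ) := by
    have := h.pos (j : ℤ) (by positivity) hjd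
    exact_mod_cast this
  unfold facm
  have h1 : 1 / (d : ℝ) ≤ (m (j : ℤ) : ℝ) / d := div_le_div_of_nonneg_right hmj hdR.le
  calc 1 / (2 * d : ℝ) = 1 / (d : ℝ) * (1 / 2) := by ring
    _ ≤ (m (j : ℤ) : ℝ) / d * (1 - η) :=
        mul_le_mul h1 (by linarith) (by norm_num) (by positivity)

theorem t_AVGm : S_AVGm := by
  intro d m r h θ η hθ hθ1 hη hη2 B
  have hd : 0 < d := by have := h.two_le; omega
  have hdR : (0 : ℝ) < d := by exact_mod_cast hd
  have hd1 : (1 : ℝ) ≤ d := by exact_mod_cast hd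
  have hfl : ∀ j ∈ range d, 1 / (2 * d : ℝ) ≤ facm d m η j := fun j hj => facm_lower h hη2 j hj
  have hfac0 : ∀ j ∈ range d, 0 < facm d m η j := by
    intro j hj
    exact lt_of_lt_of_le (by positivity) (hfl j hj)
  have hρ : 0 ≤ (∑ j ∈ range d, facm d m η j ^ (-θ)) / d :=
    div_nonneg (Finset.sum_nonneg fun j hj => Real.rpow_nonneg (hfac0 j hj).le _) hdR.le
  set M₀ : ℝ := 1 + ∑ j ∈ range d, (|((r (j : ℤ) : ℤ) : ℝ)| + d * B) / η with hM₀
  have hterm : ∀ j ∈ range d, (|((r (j : ℤ) : ℤ) : ℝ)| + d * B) / η ≤ M₀ := by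
    intro j hj
    have := Finset.single_le_sum (f := fun j : ℕ => (|((r (j : ℤ) : ℤ) : ℝ)| + d * B) / η)
      (fun i _ => by positivity) hj
    have h2 : (|((r (j : ℤ) : ℤ) : ℝ)| + d * B) / η ≤
      ∑ j ∈ range d, (|((r (j : ℤ) : ℤ) : ℝ)| + d * B) / η := this
    linarith
  have hM1 : 1 ≤ M₀ := by
    have : 0 ≤ ∑ j ∈ range d, (|((r (j : ℤ) : ℤ) : ℝ)| + d * B) / η :=
      Finset.sum_nonneg fun i _ => by positivity
    linarith
  refine ⟨M₀, hM1, ?_⟩
  intro M w hw hw1 k
  induction k with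
  | zero =>
    intro i _ c y _ z hz hxz
    simp only [pow_zero, one_mul] at hz
    have hz0 : 0 < z := by linarith
    simp only [Function.iterate_zero, id_eq, pow_zero, mul_one]
    have h1 : ∀ u ∈ range (d ^ i), Vm M θ (y + c * u) ≤ z ^ (-θ) := by
      intro u hu
      unfold Vm
      split_ifs
      · exact Real.rpow_nonneg hz0.le _
      · have := hxz u (Finset.mem_range.mp hu)
        exact Real.rpow_le_rpow_of_nonpos hz0 this (by linarith)
    calc ∑ u ∈ range (d ^ i), Vm M θ (y + c * u) ≤ ∑ u ∈ range (d ^ i), z ^ (-θ) := Finset.sum_le_sum h1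
      _ = (d : ℝ) ^ i * z ^ (-θ) := by simp
  | succ k ih =>
    intro i hki c y hc z hz hxz
    obtain ⟨i', rfl⟩ : ∃ i', i = i' + 1 := ⟨i - 1, by omega⟩
    have hki' : k ≤ i' := by omega
    have h2d : (1 : ℝ) ≤ 2 * d := by linarith
    have hzM : M₀ ≤ z := by
      have h1 : (1 : ℝ) ≤ (2 * d : ℝ) ^ (k + 1) := one_le_pow₀ h2d
      have h2 : 1 * M₀ ≤ (2 * d : ℝ) ^ (k + 1) * M₀ := mul_le_mul_of_nonneg_right h1 (by linarith)
      linarith
    have hz0 : 0 < z := by linarith
    set F : ℤ → ℝ := (Q d m r w B M)^[k] (Vm M θ) with hF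
    have hF0 : ∀ x, 0 ≤ F x := Qitm_nonneg hw B M θ k
    have hit : ∀ x, (Q d m r w B M)^[k + 1] (Vm M θ) x = Q d m r w B M F x := by
      intro x
      rw [Function.iterate_succ_apply']
    simp only [hit]
    -- the bound for a fixed class `s`
    have key : ∀ s ∈ range d, ∑ v ∈ range (d ^ i'), Q d m r w B M F (y + c * ((s + d * v : ℕ) : ℤ)) ≤
        (d : ℝ) ^ i' * ((∑ j ∈ range d, facm d m η j ^ (-θ)) / d) ^ k *
          (facm d m η ((y + c * (s : ℤ)) % d).toNat ^ (-θ) * z ^ (-θ)) := by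
      intro s hs
      set j : ℕ := ((y + c * (s : ℤ)) % d).toNat with hj
      have hd' : (0 : ℤ) < d := by exact_mod_cast hd
      have hj1 := Int.emod_nonneg (y + c * (s : ℤ)) hd'.ne'
      have hj2 := Int.emod_lt_of_pos (y + c * (s : ℤ)) hd'
      have hjj : (y + c * (s : ℤ)) % d = (j : ℤ) := by omega
      have hjr : j ∈ range d := by rw [Finset.mem_range]; omega
      have hxv : ∀ v : ℕ, y + c * ((s + d * v : ℕ) : ℤ) = (y + c * s) + d * (c * v) := by
        intro v; push_cast; ring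
      have hTv : ∀ v : ℕ, T d m r (y + c * ((s + d * v : ℕ) : ℤ))
          = T d m r (y + c * s) + m (j : ℤ) * c * v := by
        intro v
        rw [hxv v, Pool.Agent.U594.RP.T_shift hd, hjj]
        ring
      have hb : ∀ v : ℕ, v < d ^ i' → ∀ u ∈ Icc (-(B : ℤ)) B,
          facm d m η j * z ≤ |((T d m r (y + c * s) + u + m (j : ℤ) * c * v : ℤ) : ℝ)| := by
        intro v hv u hu
        have hu' : |u| ≤ B := by
          rw [Finset.mem_Icc] at hu
          exact abs_le.mpr hu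
        have hlt : s + d * v < d ^ (i' + 1) := by
          have hs' := Finset.mem_range.mp hs
          calc s + d * v < d + d * v := by omega
            _ = d * (v + 1) := by ring
            _ ≤ d * d ^ i' := Nat.mul_le_mul_left _ hv
            _ = d ^ (i' + 1) := by ring
        have h1 := hxz _ hlt
        have h2 : (y + c * ((s + d * v : ℕ) : ℤ)) % d = (j : ℤ) := by
          rw [hxv v, Int.add_mul_emod_self_left, hjj]
        have h3 := step_lower h hη B j hjr ((hterm j hjr).trans hzM) _ h2 h1 u hu'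
        rw [hTv v] at h3
        have h4 : T d m r (y + c * s) + u + m (j : ℤ) * c * v
            = T d m r (y + c * s) + m (j : ℤ) * c * v + u := by ring
        rw [h4]
        exact h3
      have hcop : IsCoprime (m (j : ℤ) * c) (d : ℤ) := by
        have hjd : (j : ℤ) < d := by exact_mod_cast Finset.mem_range.mp hjr
        exact IsCoprime.mul_left (h.cop (j : ℤ) (by positivity) hjd) hc
      have hz' : (2 * d : ℝ) ^ k * M₀ ≤ facm d m η j * z := by
        have h1 : (1 / (2 * d : ℝ)) * ((2 * d : ℝ) ^ (k + 1) * M₀) ≤ facm d m η j * z :=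
          mul_le_mul (hfl j hjr) hz (by positivity) (hfac0 j hjr).le
        have h2 : (1 / (2 * d : ℝ)) * ((2 * d : ℝ) ^ (k + 1) * M₀) = (2 * d : ℝ) ^ k * M₀ := by
          have h20 : (2 * d : ℝ) ≠ 0 := by positivity
          rw [pow_succ]
          calc (1 / (2 * d : ℝ)) * ((2 * d : ℝ) ^ k * (2 * d : ℝ) * M₀)
              = (1 / (2 * d : ℝ) * (2 * d : ℝ)) * ((2 * d : ℝ) ^ k * M₀) := by ring
            _ = (2 * d : ℝ) ^ k * M₀ := by rw [one_div_mul_cancel h20, one_mul]
        linarith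
      have hih : ∀ u ∈ Icc (-(B : ℤ)) B,
          ∑ v ∈ range (d ^ i'), F (T d m r (y + c * s) + u + m (j : ℤ) * c * v) ≤
            (d : ℝ) ^ i' * ((∑ j ∈ range d, facm d m η j ^ (-θ)) / d) ^ k *
              (facm d m η j * z) ^ (-θ) := by
        intro u hu
        exact ih i' hki' (m (j : ℤ) * c) (T d m r (y + c * s) + u) hcop (facm d m η j * z)
          hz' (fun v hv => hb v hv u hu)
      have hrpow : (facm d m η j * z) ^ (-θ) = facm d m η j ^ (-θ) * z ^ (-θ) :=
        Real.mul_rpow (hfac0 j hjr).le hz0.le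
      have hX : 0 ≤ (d : ℝ) ^ i' * ((∑ j ∈ range d, facm d m η j ^ (-θ)) / d) ^ k *
          (facm d m η j ^ (-θ) * z ^ (-θ)) := by
        have h1 := Real.rpow_nonneg hz0.le (-θ)
        have h2 := Real.rpow_nonneg (hfac0 j hjr).le (-θ)
        positivity
      calc ∑ v ∈ range (d ^ i'), Q d m r w B M F (y + c * ((s + d * v : ℕ) : ℤ))
          ≤ ∑ v ∈ range (d ^ i'), ∑ u ∈ Icc (-(B : ℤ)) B,
              w u * F (T d m r (y + c * s) + u + m (j : ℤ) * c * v) := by
            refine Finset.sum_le_sum fun v _ => ?_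
            refine (Pool.Agent.U594.RP.Q_le hw B M hF0 _).trans (le_of_eq ?_)
            refine Finset.sum_congr rfl fun u _ => ?_
            rw [hTv v]
            congr 2
            ring
        _ = ∑ u ∈ Icc (-(B : ℤ)) B, w u *
              ∑ v ∈ range (d ^ i'), F (T d m r (y + c * s) + u + m (j : ℤ) * c * v) := by
            rw [Finset.sum_comm]
            refine Finset.sum_congr rfl fun u _ => ?_
            rw [Finset.mul_sum]
        _ ≤ ∑ u ∈ Icc (-(B : ℤ)) B, w u *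
              ((d : ℝ) ^ i' * ((∑ j ∈ range d, facm d m η j ^ (-θ)) / d) ^ k *
                (facm d m η j ^ (-θ) * z ^ (-θ))) := by
            refine Finset.sum_le_sum fun u hu => ?_
            have := hih u hu
            rw [hrpow] at this
            exact mul_le_mul_of_nonneg_left this (hw u)
        _ = (∑ u ∈ Icc (-(B : ℤ)) B, w u) *
              ((d : ℝ) ^ i' * ((∑ j ∈ range d, facm d m η j ^ (-θ)) / d) ^ k *
                (facm d m η j ^ (-θ) * z ^ (-θ))) := by rw [Finset.sum_mul]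
        _ ≤ _ := by
            calc _ ≤ 1 * ((d : ℝ) ^ i' * ((∑ j ∈ range d, facm d m η j ^ (-θ)) / d) ^ k *
                (facm d m η j ^ (-θ) * z ^ (-θ))) := mul_le_mul_of_nonneg_right hw1 hX
              _ = _ := one_mul _
    have hpow : d ^ (i' + 1) = d * d ^ i' := by ring
    rw [hpow, Pool.Agent.U594.RP.sum_split d (d ^ i') (fun u => Q d m r w B M F (y + c * (u : ℤ)))]
    refine (Finset.sum_le_sum key).trans (le_of_eq ?_)
    rw [← Finset.mul_sum, ← Finset.sum_mul,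
      Pool.Agent.U594.RP.sum_residues hd hc y (fun j => facm d m η j ^ (-θ))]
    generalize (∑ j ∈ range d, facm d m η j ^ (-θ)) = S
    have hS : S = d * (S / d) := by field_simp
    generalize hρ' : S / (d : ℝ) = ρ' at hS ⊢
    rw [hS]
    ring

end Pool.Agent.U492.RP
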